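import Pool.Agent.QUD.StmtsY

/-!
# Squad QUD, row BA2: the comparison for the large class
-/

set_option autoImplicit false

namespace Pool.Agent.QUD.H70

open Pool.Agent.AEU Pool.Agent.XQ Pool.Agent.QUD
open Pool.Agent.XQ.U (DR bb)
open Pool.Agent.AEU.H12 (FA)

theorem ba2 (hbyc : BycStmt) (hxmc : XmcStmt) (hxm1 : Xm1Stmt) (hxm2 : Xm2Stmt)
    (hxm3 : Xm3Stmt) : Ba2Stmt := by
  classical
  intro L l g r A B H JP J hL hTwo hT6 hOk hJP hJ hsmall
  obtain ⟨hk, hform⟩ := hTwo
  obtain ⟨h1, h2⟩ := hbyc L l g r A B H JP J hL hk hOk hJP hJ hsmall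
  refine ⟨h1, fun hJP0 => ?_⟩
  obtain ⟨hJ0, hg, hr, hcA, hdA, hwt, hct⟩ := h2 hJP0
  have hxc := hxmc l A hk hOk.1 hcA hdA
  refine ⟨hJ0, hg, hr, ?_, ?_⟩
  · intro hl
    subst hl
    exact ⟨hxc.1 (by simp), (hxm1 [] A B H hk hOk hwt hct).1 (by simp)⟩
  · intro hl
    by_cases hob : ∃ p ∈ l, obt p
    · obtain ⟨p, hp, hpo, q, hq, hq2⟩ := hxc.2 hob
      exact Or.inl ⟨p, hp, fun _ => ⟨q, hq, hq2⟩, fun h => absurd hpo h, fun h => absurd hpo h⟩
    · have hob' : ∀ p ∈ l, ¬ obt p := fun p hp h => hob ⟨p, hp, h⟩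
      rcases hform with h | ⟨p, rfl⟩ | ⟨a, b, c, rfl⟩
      · exact absurd h hl
      · refine Or.inl ⟨p, by simp, ?_⟩
        exact (hxm1 [p] A B H hk hOk hwt hct).2 (by simp) p (by simp) (hob' p (by simp)) A
      · have ka : Kil (a, b) := hk _ (by simp)
        have kc : Kil (a, c) := hk _ (by simp)
        have hwt' : ∀ α, wt α (a, b) + wt α (a, c) = wQ B H α := by
          intro α
          have h3 := hwt α
          simpa using h3
        have hct' : ct (a, b) + ct (a, c) = cQ B H := by simpa using hct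
        by_cases ha : a < Real.pi / 2
        · rcases hxm3 a b c A B H ka kc hOk ha hwt' hct' with h | h | ⟨f1, f2, h12, i1, i2⟩
          · exact Or.inl ⟨(a, b), by simp, h⟩
          · exact Or.inr (Or.inl h)
          · exact Or.inr (Or.inr ⟨a, b, c, f1, f2, rfl, ha, h12, i1, i2⟩)
        · refine Or.inl ?_
          by_cases hm : Real.pi / 2 ≤ min a b ∨ Real.pi / 2 ≤ min a c
          · rcases hxm2 a b c A B H ka kc hOk (hob' _ (by simp)) (hob' _ (by simp)) hm hwt' hct'
              with h | h
            · exact ⟨(a, b), by simp, h⟩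
            · exact ⟨(a, c), by simp, h⟩
          · exfalso
            rw [not_or, not_le, not_le] at hm
            obtain ⟨m1, m2⟩ := hm
            rw [not_lt] at ha
            have hb : b < Real.pi / 2 := by
              rcases min_lt_iff.1 m1 with h | h
              · linarith
              · exact h
            have hc : c < Real.pi / 2 := by
              rcases min_lt_iff.1 m2 with h | h
              · linarith
              · exact h
            have ha2 : Real.pi / 2 < a := by
              have h5 : Real.pi < a + b := ka.2.2.2.2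
              linarith
            exact hT6 ⟨a, b, c, rfl, ha2, hb, hc⟩

end Pool.Agent.QUD.H70
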