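import Pool.Agent.QUD.StmtsC
import Pool.Agent.Helper5_PM.M061

/-!
helper70, squad QUD (MP_5b0138_an), row CRK: the covariance of the support function in two
directions.
-/

set_option autoImplicit false

namespace Pool.Agent.QUD.H70

open MeasureTheory Complex Filter Topology ProbabilityTheory Pool.Agent.H16Iso Pool.Agent.H62T
open Pool.Agent.H38KL (Kit)
open Pool.Agent.H60K (kME us hh KesStatement)
open Pool.Agent.H60K.H25 (Hs isOpen_Hs SS kME_diag)
open Pool.Agent.H16F.H8 (AE)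
open scoped ENNReal

lemma kitm : Measurable (fun p : ℝ × ℝ => Kit p.1 p.2) := by
  have h : StronglyMeasurable (fun p : ℝ × ℝ => ∫ v in Set.Ioi (0 : ℝ),
      Real.exp (-(p.2 * Real.cosh v)) * Real.cos (p.1 * v)) := by
    refine StronglyMeasurable.integral_prod_right (f := fun (p : ℝ × ℝ) (v : ℝ) =>
      Real.exp (-(p.2 * Real.cosh v)) * Real.cos (p.1 * v)) ?_
    refine Continuous.stronglyMeasurable ?_
    show Continuous fun q : (ℝ × ℝ) × ℝ =>
      Real.exp (-(q.1.2 * Real.cosh q.2)) * Real.cos (q.1.1 * q.2)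
    fun_prop
  exact h.measurable

lemma mae {D : Set ℂ} (hD : IsOpen D) :
    MeasurableSet {p : (ℂ × ℝ) × Sp | p.2 ∈ AE D p.1.2 p.1.1} := by
  have : {p : (ℂ × ℝ) × Sp | p.2 ∈ AE D p.1.2 p.1.1} = ⋂ (m : ℕ) (k : ℕ) (_ : k ≤ 2 ^ m),
      {p : (ℂ × ℝ) × Sp | p.1.1 + (Real.sqrt p.1.2 : ℂ) * loop m p.2 k ∈ D} := by
    ext p
    simp [AE]
  rw [this]
  refine MeasurableSet.iInter fun m => MeasurableSet.iInter fun k =>
    MeasurableSet.iInter fun _ => ?_
  have hs : Measurable fun p : (ℂ × ℝ) × Sp => ((Real.sqrt p.1.2 : ℝ) : ℂ) :=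
    Complex.measurable_ofReal.comp
      (Real.continuous_sqrt.measurable.comp (measurable_snd.comp measurable_fst))
  have hm : Measurable fun p : (ℂ × ℝ) × Sp => p.1.1 + (Real.sqrt p.1.2 : ℂ) * loop m p.2 k :=
    (measurable_fst.comp measurable_fst).add (hs.mul ((loop_stmt.1 m k).comp measurable_snd))
  exact hm hD.measurableSet

lemma mss (u : Fin 3 → ℂ) (h : Fin 3 → ℝ) (M E : Finset (Fin 3)) :
    MeasurableSet {p : (ℂ × ℝ) × Sp | p.2 ∈ SS u h M E p.1.2 p.1.1} := by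
  have e : {p : (ℂ × ℝ) × Sp | p.2 ∈ SS u h M E p.1.2 p.1.1} =
      (⋂ s ∈ M, {p : (ℂ × ℝ) × Sp | p.2 ∈ AE (Hs u h s) p.1.2 p.1.1}ᶜ) ∩
        ⋂ s ∈ E, {p : (ℂ × ℝ) × Sp | p.2 ∈ AE (Hs u h s) p.1.2 p.1.1} := by
    ext p
    simp [SS]
  rw [e]
  exact (MeasurableSet.biInter M.countable_toSet fun s _ =>
    (mae (isOpen_Hs u h s)).compl).inter
    (MeasurableSet.biInter E.countable_toSet fun s _ => mae (isOpen_Hs u h s))

/-- the kernel on the diagonal, measurable version -/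
noncomputable def f2 (u : Fin 3 → ℂ) (h : Fin 3 → ℝ) (M E : Finset (Fin 3)) (p : ℂ × ℝ) : ℝ :=
  G p.2 0 * (PP (SS u h M E p.2 p.1)).toReal

lemma f2m (u : Fin 3 → ℂ) (h : Fin 3 → ℝ) (M E : Finset (Fin 3)) : Measurable (f2 u h M E) := by
  have h1 : Measurable fun p : ℂ × ℝ => PP (SS u h M E p.2 p.1) :=
    measurable_measure_prodMk_left (mss u h M E)
  have h2 : Measurable fun p : ℂ × ℝ => G p.2 0 := by
    unfold G
    fun_prop
  exact h2.mul h1.ennreal_toReal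

lemma f2_eq (u : Fin 3 → ℂ) (h : Fin 3 → ℝ) (M E : Finset (Fin 3)) {t : ℝ} (ht : 0 < t) (x : ℂ) :
    f2 u h M E (x, t) = kME u h M E t x x := (kME_diag u h M E ht x).symm

/-- the angular factor -/
noncomputable def Phi (η1 η2 τ ψ : ℝ) : ℝ :=
  Real.sinh ((2 * (η1 + η2) - Real.pi) * τ) * Real.cosh ((η1 - η2 - ψ - ψ) * τ)
        + Real.sinh ((Real.pi - (η1 + η2)) * τ) * Real.cosh ((ψ - ψ) * τ)

lemma Phi_cont (η1 η2 : ℝ) : Continuous fun p : ℝ × ℝ => Phi η1 η2 p.1 p.2 := by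
  unfold Phi
  fun_prop

lemma Phi_nonneg {η1 η2 τ ψ : ℝ} (h1 : 0 < η1) (h2 : 0 < η2) (h3 : η1 + η2 < Real.pi)
    (hτ : 0 < τ) (ha : -η2 < ψ) (hb : ψ < η1) : 0 ≤ Phi η1 η2 τ ψ := by
  unfold Phi
  rw [sub_self, zero_mul, Real.cosh_zero, mul_one]
  have hs : 0 ≤ Real.sinh ((Real.pi - (η1 + η2)) * τ) :=
    Real.sinh_nonneg_iff.2 (mul_nonneg (by linarith) hτ.le)
  rcases le_or_gt Real.pi (2 * (η1 + η2)) with hc | hc
  · have h4 : 0 ≤ Real.sinh ((2 * (η1 + η2) - Real.pi) * τ) :=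
      Real.sinh_nonneg_iff.2 (mul_nonneg (by linarith) hτ.le)
    have h5 := (Real.cosh_pos ((η1 - η2 - ψ - ψ) * τ)).le
    positivity
  · have h4 : Real.sinh ((2 * (η1 + η2) - Real.pi) * τ) ≤ 0 :=
      Real.sinh_nonpos_iff.2 (mul_nonpos_of_nonpos_of_nonneg (by linarith) hτ.le)
    have h5 : Real.cosh ((η1 - η2 - ψ - ψ) * τ) ≤ Real.cosh ((η1 + η2) * τ) := by
      rw [Real.cosh_le_cosh, abs_mul, abs_mul]
      refine mul_le_mul_of_nonneg_right ?_ (abs_nonneg _)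
      rw [abs_of_pos (by linarith : 0 < η1 + η2), abs_le]
      constructor <;> linarith
    have h6 : Real.sinh ((2 * (η1 + η2) - Real.pi) * τ) * Real.cosh ((η1 + η2) * τ)
        ≤ Real.sinh ((2 * (η1 + η2) - Real.pi) * τ) * Real.cosh ((η1 - η2 - ψ - ψ) * τ) :=
      mul_le_mul_of_nonpos_left h5 h4
    have e1 : Real.sinh ((3 * (η1 + η2) - Real.pi) * τ)
        = Real.sinh ((2 * (η1 + η2) - Real.pi) * τ) * Real.cosh ((η1 + η2) * τ)
          + Real.cosh ((2 * (η1 + η2) - Real.pi) * τ) * Real.sinh ((η1 + η2) * τ) := by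
      rw [← Real.sinh_add]; congr 1; ring
    have e2 : Real.sinh ((η1 + η2 - Real.pi) * τ)
        = Real.sinh ((2 * (η1 + η2) - Real.pi) * τ) * Real.cosh ((η1 + η2) * τ)
          - Real.cosh ((2 * (η1 + η2) - Real.pi) * τ) * Real.sinh ((η1 + η2) * τ) := by
      rw [← Real.sinh_sub]; congr 1; ring
    have e3 : Real.sinh ((Real.pi - (η1 + η2)) * τ) = -Real.sinh ((η1 + η2 - Real.pi) * τ) := by
      rw [← Real.sinh_neg]; congr 1; ring
    have h7 : Real.sinh ((η1 + η2 - Real.pi) * τ) ≤ Real.sinh ((3 * (η1 + η2) - Real.pi) * τ) := by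
      refine Real.sinh_le_sinh.2 (mul_le_mul_of_nonneg_right (by linarith) hτ.le)
    linarith

lemma cosh_int {η1 η2 τ : ℝ} (hτ : 0 < τ) :
    ∫ ψ in (-η2)..η1, Real.cosh ((η1 - η2 - ψ - ψ) * τ) = Real.sinh ((η1 + η2) * τ) / τ := by
  have hd : ∀ ψ ∈ Set.uIcc (-η2) η1, HasDerivAt
      (fun ψ => -(Real.sinh ((η1 - η2 - ψ - ψ) * τ) / (2 * τ)))
      (Real.cosh ((η1 - η2 - ψ - ψ) * τ)) ψ := by
    intro ψ _
    have h1 : HasDerivAt (fun ψ : ℝ => (η1 - η2 - ψ - ψ) * τ) (-2 * τ) ψ := by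
      have := (((hasDerivAt_const ψ (η1 - η2)).sub (hasDerivAt_id ψ)).sub
        (hasDerivAt_id ψ)).mul_const τ
      refine this.congr_deriv ?_
      ring
    have h2 := ((Real.hasDerivAt_sinh _).comp ψ h1).div_const (2 * τ)
    refine h2.neg.congr_deriv ?_
    field_simp
  rw [intervalIntegral.integral_eq_sub_of_hasDerivAt hd
    (Continuous.intervalIntegrable (by fun_prop) _ _)]
  have e1 : (η1 - η2 - η1 - η1) * τ = -((η1 + η2) * τ) := by ring
  have e2 : (η1 - η2 - -η2 - -η2) * τ = (η1 + η2) * τ := by ring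
  rw [e1, e2, Real.sinh_neg]
  field_simp
  ring

lemma Phi_int {η1 η2 τ : ℝ} (h1 : 0 < η1) (h2 : 0 < η2) (h3 : η1 + η2 < Real.pi) (hτ : 0 < τ) :
    ∫⁻ ψ in Set.Ioo (-η2) η1, ENNReal.ofReal (Phi η1 η2 τ ψ / Real.sinh ((η1 + η2) * τ))
      = ENNReal.ofReal (Real.sinh ((2 * (η1 + η2) - Real.pi) * τ) / τ
      + (η1 + η2) * Real.sinh ((Real.pi - (η1 + η2)) * τ) / Real.sinh ((η1 + η2) * τ)) := by
  have hsp : 0 < Real.sinh ((η1 + η2) * τ) :=
    Real.sinh_pos_iff.2 (mul_pos (by linarith) hτ)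
  have hc : Continuous fun ψ => Phi η1 η2 τ ψ / Real.sinh ((η1 + η2) * τ) :=
    ((Phi_cont η1 η2).comp (by fun_prop : Continuous fun ψ : ℝ => (τ, ψ))).div_const _
  have hI : IntegrableOn (fun ψ => Phi η1 η2 τ ψ / Real.sinh ((η1 + η2) * τ))
      (Set.Ioo (-η2) η1) :=
    (hc.integrableOn_Icc (a := -η2) (b := η1)).mono_set Set.Ioo_subset_Icc_self
  rw [← ofReal_integral_eq_lintegral_ofReal hI]
  · congr 1
    rw [← integral_Ioc_eq_integral_Ioo, ← intervalIntegral.integral_of_le (by linarith)]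
    have e : (fun ψ => Phi η1 η2 τ ψ / Real.sinh ((η1 + η2) * τ)) = fun ψ =>
        Real.sinh ((2 * (η1 + η2) - Real.pi) * τ) / Real.sinh ((η1 + η2) * τ)
          * Real.cosh ((η1 - η2 - ψ - ψ) * τ)
        + Real.sinh ((Real.pi - (η1 + η2)) * τ) / Real.sinh ((η1 + η2) * τ) := by
      funext ψ
      unfold Phi
      rw [sub_self ψ, zero_mul, Real.cosh_zero]
      ring
    rw [e, intervalIntegral.integral_add (Continuous.intervalIntegrable (by fun_prop) _ _)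
      (Continuous.intervalIntegrable (by fun_prop) _ _), intervalIntegral.integral_const_mul,
      cosh_int hτ, intervalIntegral.integral_const, smul_eq_mul]
    field_simp
    ring
  · filter_upwards [ae_restrict_mem measurableSet_Ioo] with ψ hψ
    exact div_nonneg (Phi_nonneg h1 h2 h3 hτ hψ.1 hψ.2) hsp.le

/-- the wedge -/
def Wd (η1 η2 : ℝ) : Set ℂ := {x | ip (us η1 η2 1) x < 0 ∧ ip (us η1 η2 2) x < 0}

lemma ip1 (η1 η2 r ψ : ℝ) : ip (us η1 η2 1) (r * exp (ψ * I)) = r * Real.sin (ψ - η1) := by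
  have e : us η1 η2 1 = I * exp (η1 * I) := by simp [us]
  rw [e]
  unfold ip
  simp only [Complex.exp_mul_I, ← Complex.ofReal_cos, ← Complex.ofReal_sin, Complex.mul_re,
    Complex.mul_im, Complex.add_re, Complex.add_im, Complex.ofReal_re, Complex.ofReal_im,
    Complex.I_re, Complex.I_im]
  rw [Real.sin_sub]
  ring

lemma ip2 (η1 η2 r ψ : ℝ) : ip (us η1 η2 2) (r * exp (ψ * I)) = -(r * Real.sin (ψ + η2)) := by
  have e : us η1 η2 2 = -(I * exp (((-η2 : ℝ) : ℂ) * I)) := by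
    simp [us]
  rw [e]
  unfold ip
  simp only [Complex.exp_mul_I, ← Complex.ofReal_cos, ← Complex.ofReal_sin, Complex.mul_re,
    Complex.mul_im, Complex.add_re, Complex.add_im, Complex.ofReal_re, Complex.ofReal_im,
    Complex.I_re, Complex.I_im, Complex.neg_re, Complex.neg_im]
  rw [Real.sin_add, Real.cos_neg, Real.sin_neg]
  ring

lemma mem_Wd {η1 η2 r ψ : ℝ} (h1 : 0 < η1) (h2 : 0 < η2) (h3 : η1 + η2 < Real.pi) (hr : 0 < r)
    (ha : -Real.pi < ψ) (hb : ψ < Real.pi) :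
    ((r : ℂ) * exp (ψ * I)) ∈ Wd η1 η2 ↔ -η2 < ψ ∧ ψ < η1 := by
  unfold Wd
  rw [Set.mem_ofPred_eq, ip1, ip2]
  constructor
  · rintro ⟨hA, hB⟩
    have hA' : Real.sin (ψ - η1) < 0 := by
      by_contra hc
      push Not at hc
      exact absurd hA (not_lt.2 (mul_nonneg hr.le hc))
    have hB' : 0 < Real.sin (ψ + η2) := by
      by_contra hc
      push Not at hc
      have := mul_nonpos_of_nonneg_of_nonpos hr.le hc
      linarith
    constructor
    · by_contra hc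
      push Not at hc
      have : Real.sin (ψ + η2) ≤ 0 := Real.sin_nonpos_of_nonpos_of_neg_pi_le (by linarith)
        (by linarith)
      linarith
    · by_contra hc
      push Not at hc
      have : 0 ≤ Real.sin (ψ - η1) := Real.sin_nonneg_of_nonneg_of_le_pi (by linarith)
        (by linarith)
      linarith
  · rintro ⟨hA, hB⟩
    constructor
    · exact mul_neg_of_pos_of_neg hr (Real.sin_neg_of_neg_of_neg_pi_lt (by linarith)
        (by linarith))
    · have := mul_pos hr (Real.sin_pos_of_pos_of_lt_pi (by linarith : 0 < ψ + η2) (by linarith))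
      linarith

lemma meas_Wd (η1 η2 : ℝ) : MeasurableSet (Wd η1 η2) := by
  have h1 := (H60K.H25.ip_cont (us η1 η2 1))
  have h2 := (H60K.H25.ip_cont (us η1 η2 2))
  exact ((isOpen_lt h1 continuous_const).inter (isOpen_lt h2 continuous_const)).measurableSet

lemma polar_Wd {η1 η2 : ℝ} (h1 : 0 < η1) (h2 : 0 < η2) (h3 : η1 + η2 < Real.pi) (g : ℂ → ℝ≥0∞) :
    ∫⁻ x in Wd η1 η2, g x = ∫⁻ p in Set.Ioi (0 : ℝ) ×ˢ Set.Ioo (-η2) η1,
      ENNReal.ofReal p.1 * g (p.1 * exp (p.2 * I)) := by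
  rw [← lintegral_indicator (meas_Wd η1 η2), ← Complex.lintegral_comp_polarCoord_symm]
  have hT : polarCoord.target = Set.Ioi (0 : ℝ) ×ˢ Set.Ioo (-Real.pi) Real.pi := rfl
  have hsub : Set.Ioi (0 : ℝ) ×ˢ Set.Ioo (-η2) η1 ⊆ polarCoord.target := by
    rw [hT]
    exact Set.prod_mono le_rfl (Set.Ioo_subset_Ioo (by linarith) (by linarith))
  have hme : MeasurableSet (Set.Ioi (0 : ℝ) ×ˢ Set.Ioo (-η2) η1) :=
    measurableSet_Ioi.prod measurableSet_Ioo
  have e : ∫⁻ p in polarCoord.target, ENNReal.ofReal p.1 • (Wd η1 η2).indicator g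
      (Complex.polarCoord.symm p) = ∫⁻ p in polarCoord.target,
        (Set.Ioi (0 : ℝ) ×ˢ Set.Ioo (-η2) η1).indicator
          (fun p : ℝ × ℝ => ENNReal.ofReal p.1 * g (p.1 * exp (p.2 * I))) p := by
    refine setLIntegral_congr_fun (by rw [hT]; exact measurableSet_Ioi.prod measurableSet_Ioo) ?_
    intro p hp
    rw [hT] at hp
    have hp1 : 0 < p.1 := hp.1
    have hp2 := hp.2
    have e1 : Complex.polarCoord.symm p = p.1 * exp (p.2 * I) := by
      rw [Complex.polarCoord_symm_apply, Complex.exp_mul_I]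
      push_cast
      rfl
    show ENNReal.ofReal p.1 • (Wd η1 η2).indicator g (Complex.polarCoord.symm p) = _
    rw [e1, smul_eq_mul]
    by_cases hc : -η2 < p.2 ∧ p.2 < η1
    · have hm : ((p.1 : ℂ) * exp (p.2 * I)) ∈ Wd η1 η2 := (mem_Wd h1 h2 h3 hp1 hp2.1 hp2.2).2 hc
      have hm2 : p ∈ Set.Ioi (0 : ℝ) ×ˢ Set.Ioo (-η2) η1 := ⟨hp1, hc⟩
      rw [Set.indicator_of_mem hm, Set.indicator_of_mem hm2]
    · have hm : ((p.1 : ℂ) * exp (p.2 * I)) ∉ Wd η1 η2 := fun hh =>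
        hc ((mem_Wd h1 h2 h3 hp1 hp2.1 hp2.2).1 hh)
      have hm2 : p ∉ Set.Ioi (0 : ℝ) ×ˢ Set.Ioo (-η2) η1 := fun hh => hc hh.2
      rw [Set.indicator_of_notMem hm, Set.indicator_of_notMem hm2, mul_zero]
  rw [e, setLIntegral_indicator hme, Set.inter_eq_left.2 hsub]

theorem crk (hcrw : CrwStmt) (hcrm : CrmStmt) (hcrt : CrtStmt) (hkes : KesStatement) :
    CrkStmt := by
  intro η1 η2 h1 h2 h3
  set u := us η1 η2 with hu
  have hα : 0 < η1 + η2 := by linarith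
  have hsin : 0 < Real.sin (η1 + η2) := Real.sin_pos_of_pos_of_lt_pi hα h3
  set EE := ∫ ω, hs ω (u 1) * hs ω (u 2) ∂PP with hEE
  set c := EE / (4 * Real.pi * Real.sin (η1 + η2)) with hc
  have hW : ∀ t : ℝ, 0 < t → ∫⁻ x in Wd η1 η2, ENNReal.ofReal (kME u (hh 0) {1, 2} ∅ t x x)
      = ENNReal.ofReal c := by
    intro t ht
    obtain ⟨hA, hB, hC⟩ := hcrw η1 η2 t h1 h2 h3 ht
    have h5 := ofReal_integral_eq_lintegral_ofReal hA (Filter.Eventually.of_forall hB)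
    rw [hC] at h5
    exact h5.symm
  have hc0 : 0 ≤ c := by
    obtain ⟨hA, hB, hC⟩ := hcrw η1 η2 1 h1 h2 h3 one_pos
    rw [hc, hEE, ← hC]
    exact integral_nonneg hB
  -- integrate over t
  have hA1 : ∫⁻ t in Set.Ioi (0 : ℝ), ∫⁻ x in Wd η1 η2,
      ENNReal.ofReal (Real.exp (-t) * f2 u (hh 0) {1, 2} ∅ (x, t)) = ENNReal.ofReal c := by
    have e : ∫⁻ t in Set.Ioi (0 : ℝ), ∫⁻ x in Wd η1 η2,
        ENNReal.ofReal (Real.exp (-t) * f2 u (hh 0) {1, 2} ∅ (x, t))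
        = ∫⁻ t in Set.Ioi (0 : ℝ), ENNReal.ofReal (Real.exp (-t)) * ENNReal.ofReal c := by
      refine setLIntegral_congr_fun measurableSet_Ioi ?_
      intro t ht
      show ∫⁻ x in Wd η1 η2, ENNReal.ofReal (Real.exp (-t) * f2 u (hh 0) {1, 2} ∅ (x, t))
        = ENNReal.ofReal (Real.exp (-t)) * ENNReal.ofReal c
      rw [← hW t ht, ← lintegral_const_mul' _ _ ENNReal.ofReal_ne_top]
      refine lintegral_congr fun x => ?_
      rw [ENNReal.ofReal_mul (Real.exp_pos _).le, f2_eq _ _ _ _ ht]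
    rw [e, lintegral_mul_const' _ _ ENNReal.ofReal_ne_top,
      ← ofReal_integral_eq_lintegral_ofReal (integrableOn_exp_neg_Ioi 0)
        (Filter.Eventually.of_forall fun t => (Real.exp_pos _).le),
      integral_exp_neg_Ioi_zero, ENNReal.ofReal_one, one_mul]
  have hmeas : Measurable fun q : ℝ × ℂ =>
      ENNReal.ofReal (Real.exp (-q.1) * f2 u (hh 0) {1, 2} ∅ (q.2, q.1)) := by
    have := (f2m u (hh 0) {1, 2} ∅).comp (measurable_swap (α := ℝ) (β := ℂ))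
    exact (Measurable.mul (by fun_prop) this).ennreal_ofReal
  rw [lintegral_lintegral_swap hmeas.aemeasurable, polar_Wd h1 h2 h3] at hA1
  -- the resolvent
  have hA4 : ∀ p ∈ Set.Ioi (0 : ℝ) ×ˢ Set.Ioo (-η2) η1,
      ENNReal.ofReal p.1 * ∫⁻ t in Set.Ioi (0 : ℝ),
        ENNReal.ofReal (Real.exp (-t) * f2 u (hh 0) {1, 2} ∅ ((p.1 : ℂ) * exp (p.2 * I), t))
      = ENNReal.ofReal (1 / Real.pi ^ 2) * ∫⁻ τ in Set.Ioi (0 : ℝ),
        ENNReal.ofReal (p.1 * Kit τ p.1 ^ 2) *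
          ENNReal.ofReal (Phi η1 η2 τ p.2 / Real.sinh ((η1 + η2) * τ)) := by
    intro p hp
    have hp1 : 0 < p.1 := hp.1
    have hp2 : -η2 < p.2 ∧ p.2 < η1 := hp.2
    obtain ⟨hA, hB, hC⟩ := hkes η1 η2 0 1 p.1 p.1 p.2 p.2 h1 h2 h3 one_pos hp1 hp1
      hp2.1 hp2.2 hp2.1 hp2.2
    have e1 : ∫⁻ t in Set.Ioi (0 : ℝ),
        ENNReal.ofReal (Real.exp (-t) * f2 u (hh 0) {1, 2} ∅ ((p.1 : ℂ) * exp (p.2 * I), t))
        = ∫⁻ t in Set.Ioi (0 : ℝ), ENNReal.ofReal (Real.exp (-((1 : ℝ) ^ 2 * t)) *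
      kME (us η1 η2) (hh 0) {1, 2} ∅ t (p.1 * exp (p.2 * I)) (p.1 * exp (p.2 * I))) := by
      refine setLIntegral_congr_fun measurableSet_Ioi ?_
      intro t ht
      show ENNReal.ofReal (Real.exp (-t) * f2 u (hh 0) {1, 2} ∅ ((p.1 : ℂ) * exp (p.2 * I), t))
        = ENNReal.ofReal (Real.exp (-((1 : ℝ) ^ 2 * t)) *
      kME (us η1 η2) (hh 0) {1, 2} ∅ t (p.1 * exp (p.2 * I)) (p.1 * exp (p.2 * I)))
      rw [f2_eq _ _ _ _ ht, one_pow, one_mul]
    have hnn : 0 ≤ᵐ[volume.restrict (Set.Ioi (0 : ℝ))] fun t : ℝ =>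
        Real.exp (-((1 : ℝ) ^ 2 * t)) *
      kME (us η1 η2) (hh 0) {1, 2} ∅ t (p.1 * exp (p.2 * I)) (p.1 * exp (p.2 * I)) := by
      filter_upwards [ae_restrict_mem measurableSet_Ioi] with t ht
      obtain ⟨_, hB', _⟩ := hcrw η1 η2 t h1 h2 h3 ht
      exact mul_nonneg (Real.exp_pos _).le (hB' _)
    rw [e1, ← ofReal_integral_eq_lintegral_ofReal hA hnn, hC,
      ENNReal.ofReal_mul (by positivity : (0 : ℝ) ≤ 1 / Real.pi ^ 2)]
    have hsn : ∀ τ : ℝ, 0 < τ → 0 < Real.sinh ((η1 + η2) * τ) := fun τ hτ =>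
      Real.sinh_pos_iff.2 (mul_pos hα hτ)
    rw [ofReal_integral_eq_lintegral_ofReal hB]
    · rw [← mul_assoc, mul_comm (ENNReal.ofReal p.1), mul_assoc,
        ← lintegral_const_mul' _ _ ENNReal.ofReal_ne_top]
      congr 1
      refine setLIntegral_congr_fun measurableSet_Ioi ?_
      intro τ hτ
      show ENNReal.ofReal p.1 * ENNReal.ofReal _ = ENNReal.ofReal _ * ENNReal.ofReal _
      rw [← ENNReal.ofReal_mul hp1.le, ← ENNReal.ofReal_mul (by positivity)]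
      congr 1
      unfold Phi
      rw [one_mul]
      ring
    · filter_upwards [ae_restrict_mem measurableSet_Ioi] with τ hτ
      have hP := Phi_nonneg h1 h2 h3 hτ hp2.1 hp2.2
      have hS := (hsn τ hτ).le
      have : 0 ≤ Kit τ (1 * p.1) * Kit τ (1 * p.1) := mul_self_nonneg _
      exact mul_nonneg this (div_nonneg hP hS)
  have hmP : Measurable fun q : (ℝ × ℝ) × ℝ => ENNReal.ofReal (q.1.1 * Kit q.2 q.1.1 ^ 2) *
      ENNReal.ofReal (Phi η1 η2 q.2 q.1.2 / Real.sinh ((η1 + η2) * q.2)) := by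
    have m1 : Measurable fun q : (ℝ × ℝ) × ℝ => Kit q.2 q.1.1 :=
      kitm.comp (by fun_prop : Measurable fun q : (ℝ × ℝ) × ℝ => (q.2, q.1.1))
    have m2 : Measurable fun q : (ℝ × ℝ) × ℝ => Phi η1 η2 q.2 q.1.2 :=
      (Phi_cont η1 η2).measurable.comp
        (by fun_prop : Measurable fun q : (ℝ × ℝ) × ℝ => (q.2, q.1.2))
    exact ((measurable_fst.comp measurable_fst).mul (m1.pow_const 2)).ennreal_ofReal.mul
      (m2.div (by fun_prop)).ennreal_ofReal
  rw [setLIntegral_congr_fun (measurableSet_Ioi.prod measurableSet_Ioo) hA4,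
    lintegral_const_mul' _ _ ENNReal.ofReal_ne_top,
    lintegral_lintegral_swap hmP.aemeasurable] at hA1
  have hA5 : ∫⁻ τ in Set.Ioi (0 : ℝ), ∫⁻ p in Set.Ioi (0 : ℝ) ×ˢ Set.Ioo (-η2) η1,
      ENNReal.ofReal (p.1 * Kit τ p.1 ^ 2) *
          ENNReal.ofReal (Phi η1 η2 τ p.2 / Real.sinh ((η1 + η2) * τ))
      = ∫⁻ τ in Set.Ioi (0 : ℝ), ENNReal.ofReal (Real.pi * τ / (2 * Real.sinh (Real.pi * τ)) *
    (Real.sinh ((2 * (η1 + η2) - Real.pi) * τ) / τ
      + (η1 + η2) * Real.sinh ((Real.pi - (η1 + η2)) * τ) / Real.sinh ((η1 + η2) * τ))) := by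
    refine setLIntegral_congr_fun measurableSet_Ioi ?_
    intro τ hτ
    have hτ' : 0 < τ := hτ
    show ∫⁻ p in Set.Ioi (0 : ℝ) ×ˢ Set.Ioo (-η2) η1,
      ENNReal.ofReal (p.1 * Kit τ p.1 ^ 2) *
          ENNReal.ofReal (Phi η1 η2 τ p.2 / Real.sinh ((η1 + η2) * τ)) = _
    obtain ⟨hA, hB⟩ := hcrm τ hτ'
    have k1 : Measurable fun r : ℝ => Kit τ r :=
      kitm.comp (by fun_prop : Measurable fun r : ℝ => (τ, r))
    have k2 : Measurable fun ψ : ℝ => Phi η1 η2 τ ψ :=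
      (Phi_cont η1 η2).measurable.comp (by fun_prop : Measurable fun ψ : ℝ => (τ, ψ))
    have hsp : 0 < Real.sinh (Real.pi * τ) := Real.sinh_pos_iff.2 (mul_pos Real.pi_pos hτ')
    rw [show (volume : Measure (ℝ × ℝ)) = (volume : Measure ℝ).prod volume from rfl,
      ← Measure.prod_restrict,
      lintegral_prod_mul (f := fun r : ℝ => ENNReal.ofReal (r * Kit τ r ^ 2))
        (g := fun ψ : ℝ => ENNReal.ofReal (Phi η1 η2 τ ψ / Real.sinh ((η1 + η2) * τ)))
        (measurable_id.mul (k1.pow_const 2)).ennreal_ofReal.aemeasurable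
        (k2.div_const _).ennreal_ofReal.aemeasurable,
      Phi_int h1 h2 h3 hτ', ← ofReal_integral_eq_lintegral_ofReal hA, hB,
      ← ENNReal.ofReal_mul (by positivity)]
    filter_upwards [ae_restrict_mem measurableSet_Ioi] with r hr
    have hr' : 0 < r := hr
    positivity
  obtain ⟨hT1, hT2⟩ := hcrt (η1 + η2) hα h3
  have hnn2 : ∀ τ : ℝ, 0 < τ → 0 ≤ Real.pi * τ / (2 * Real.sinh (Real.pi * τ)) *
    (Real.sinh ((2 * (η1 + η2) - Real.pi) * τ) / τ
      + (η1 + η2) * Real.sinh ((Real.pi - (η1 + η2)) * τ) / Real.sinh ((η1 + η2) * τ)) := by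
    intro τ hτ
    have hsp : 0 < Real.sinh (Real.pi * τ) := Real.sinh_pos_iff.2 (mul_pos Real.pi_pos hτ)
    refine mul_nonneg (by positivity) ?_
    -- the second factor is the integral of a nonnegative function
    have hsn : 0 < Real.sinh ((η1 + η2) * τ) := Real.sinh_pos_iff.2 (mul_pos hα hτ)
    have hs1 : 0 ≤ Real.sinh ((Real.pi - (η1 + η2)) * τ) :=
      Real.sinh_nonneg_iff.2 (mul_nonneg (by linarith) hτ.le)
    have hval : ∫ ψ in (-η2)..η1, Phi η1 η2 τ ψ / Real.sinh ((η1 + η2) * τ)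
        = Real.sinh ((2 * (η1 + η2) - Real.pi) * τ) / τ
      + (η1 + η2) * Real.sinh ((Real.pi - (η1 + η2)) * τ) / Real.sinh ((η1 + η2) * τ) := by
      have e : (fun ψ => Phi η1 η2 τ ψ / Real.sinh ((η1 + η2) * τ)) = fun ψ =>
          Real.sinh ((2 * (η1 + η2) - Real.pi) * τ) / Real.sinh ((η1 + η2) * τ)
            * Real.cosh ((η1 - η2 - ψ - ψ) * τ)
          + Real.sinh ((Real.pi - (η1 + η2)) * τ) / Real.sinh ((η1 + η2) * τ) := by
        funext ψ
        unfold Phi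
        rw [sub_self ψ, zero_mul, Real.cosh_zero]
        ring
      rw [e, intervalIntegral.integral_add (Continuous.intervalIntegrable (by fun_prop) _ _)
        (Continuous.intervalIntegrable (by fun_prop) _ _), intervalIntegral.integral_const_mul,
        cosh_int hτ, intervalIntegral.integral_const, smul_eq_mul]
      field_simp
      ring
    rw [← hval, intervalIntegral.integral_of_le (by linarith), integral_Ioc_eq_integral_Ioo]
    refine setIntegral_nonneg measurableSet_Ioo fun ψ hψ => ?_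
    exact div_nonneg (Phi_nonneg h1 h2 h3 hτ hψ.1 hψ.2) hsn.le
  rw [hA5, ← ofReal_integral_eq_lintegral_ofReal hT1
    ((ae_restrict_mem measurableSet_Ioi).mono fun τ hτ => hnn2 τ hτ), hT2,
    ← ENNReal.ofReal_mul (by positivity)] at hA1
  have hV0 : 0 ≤ -(Real.pi / 4 * (Real.cos (η1 + η2) / Real.sin (η1 + η2)))
      + Real.pi * (Real.pi ^ 2 - (η1 + η2) ^ 2) / (24 * (η1 + η2)) := by
    rw [← hT2]
    exact setIntegral_nonneg measurableSet_Ioi fun τ hτ => hnn2 τ hτ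
  have hfin := (ENNReal.ofReal_eq_ofReal_iff (mul_nonneg (by positivity) hV0) hc0).1 hA1
  have hEc : EE = c * (4 * Real.pi * Real.sin (η1 + η2)) := by
    rw [hc]; field_simp
  rw [hEc, ← hfin]
  have hpi := Real.pi_pos
  field_simp
  ring

end Pool.Agent.QUD.H70
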