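import Pool.Agent.QUD.StmtsXU
import Pool.Agent.Helper35_QUD.ALB

/-!
# Squad QUD, row XAB: the group of the types B, H against the items of a polygon
-/

set_option autoImplicit false

namespace Pool.Agent.QUD.H70

open MeasureTheory Filter Topology Real Set Pool.Agent.AEU Pool.Agent.AEU.H12 Pool.Agent.XQ
  Pool.Agent.XQ.U
open Pool.Agent.XQ.U.H48 (Good TT_add TT_sub TT_sum)
open Pool.Agent.QUD.H35 (good_dB TT_dB)

/-- XAB -/
theorem xab (hreg : RegStmt) (hregB : RegBStmt) (hlead : LeadBStmt) : XabStmt := by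
  intro L l A B H hL hl hok
  have g1 : Good (fun v => (l.map fun p => dB v p).sum) :=
    Good.sum l (fun p v => dB v p) fun p hp => good_dB hreg hL (hl p hp)
  obtain ⟨r1, r2, r3, r4⟩ := hregB L [] B H [] hL (by simp) (fun p hp => (hok.2.1 p hp).1)
    hok.2.2 (by simp)
  have g2 : Good (gBHE [] B H []) := ⟨r1, r2, r3⟩
  have g := g1.add g2
  have hrep : ∀ κ : ℝ, 0 < κ → (l.map (gBp L κ)).sum - (SumB L B κ + SumH L H κ) =
      1 / π * ∫ v : ℝ, rexp (-(κ * L * cosh v)) *
        ((l.map fun p => dB v p).sum + gBHE [] B H [] v) := by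
    intro κ hκ
    have e1 : H48.TT L κ (fun v => (l.map fun p => dB v p).sum) = (l.map (gBp L κ)).sum := by
      rw [TT_sum hL hκ l (fun p v => dB v p) fun p hp => good_dB hreg hL (hl p hp)]
      congr 1
      refine List.map_congr_left fun p hp => ?_
      exact (TT_dB hreg hL hκ (hl p hp)).symm
    have e2 : H48.TT L κ (gBHE [] B H []) = -(SumB L B κ + SumH L H κ) := by
      have h0 : SumB L [] κ = 0 := by simp [SumB]
      have h1 : SumE L [] κ = 0 := by simp [SumE]
      have h2 := r4 κ hκ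
      rw [h0, h1] at h2
      have h3 : H48.TT L κ (gBHE [] B H []) =
          1 / π * ∫ v : ℝ, rexp (-(κ * L * cosh v)) * gBHE [] B H [] v := rfl
      rw [h3, ← h2]
      ring
    have e3 : (l.map (gBp L κ)).sum - (SumB L B κ + SumH L H κ) =
        H48.TT L κ (fun v => (l.map fun p => dB v p).sum) + H48.TT L κ (gBHE [] B H []) := by
      rw [e1, e2]
      ring
    rw [e3, ← TT_add hL hκ g1 g2]
    rfl
  have hval : ∀ v, gBHE [] B H [] v =
      -((B.map fun q => fB q v).sum + (H.map fun α => fH α v).sum) := by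
    intro v
    simp [gBHE]
  rcases hlead L _ hL g.an g.ev g.bd with h0 | ⟨j, c, hc, hl0⟩
  · left
    have h1 : ∀ v, (l.map fun p => dB v p).sum + gBHE [] B H [] v = 0 := fun v =>
      congrFun h0 v
    refine ⟨fun v => ?_, 0, 1, one_pos, ?_⟩
    · have h2 := h1 v
      rw [hval] at h2
      have h3 : (l.map (dB v)).sum = (l.map fun p => dB v p).sum := rfl
      rw [h3]
      linarith
    · filter_upwards [eventually_gt_atTop 0] with κ hκ
      rw [hrep κ hκ]
      simp [h1]
  · right
    refine ⟨j, 1 / π * c, mul_ne_zero (by positivity) hc, ?_⟩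
    have h1 : Lead (fun κ => 1 / π * ∫ v : ℝ, rexp (-(κ * L * cosh v)) *
        ((l.map fun p => dB v p).sum + gBHE [] B H [] v)) L
        (1 / 2 + j) (1 / π * c) := Lead.const_mul (1 / π) hl0
    refine Tendsto.congr' ?_ h1
    filter_upwards [eventually_gt_atTop 0] with κ hκ
    rw [hrep κ hκ]

end Pool.Agent.QUD.H70
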